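import Pool.Agent.Helper24_AT8.RGA

/-!
# Squad AT8, row RGB

Two generators: regular vectors modulo `V ^ (ℓ ^ 2)`.  If the complement is killed by `ℓ`, the group
`E` is abelian and row RGA applies.
-/

set_option autoImplicit false

namespace Pool.Agent.PP.T8

namespace H24

theorem r1 {V : Type} [CommGroup V] (A B X Y : V) : (A * B)⁻¹ * ((A * X) * (B * Y)) = X * Y := by
  rw [mul_mul_mul_comm, inv_mul_cancel_left]

theorem r2 {V : Type} [CommGroup V] (K A B : V) (n : ℕ) :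
    K * B ^ n = K * A ^ n * (A⁻¹ * B) ^ n := by
  rw [mul_pow A⁻¹, inv_pow, mul_assoc, mul_inv_cancel_left]

/-- counting: two independent elements generate modulo the powers -/
theorem gen2 {V : Type} [CommGroup V] [Finite V] (ℓ : ℕ) [hp : Fact ℓ.Prime]
    (hxy : ∃ x y : V, (⊤ : Subgroup V) = Subgroup.closure {x, y}) (u k : V)
    (h : ∀ (i j : ℤ) (v : V), u ^ i * k ^ j = v ^ ℓ → (ℓ : ℤ) ∣ i ∧ (ℓ : ℤ) ∣ j) (v : V) :
    ∃ (i j : ℤ) (w : V), v = u ^ i * k ^ j * w ^ ℓ := by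
  obtain ⟨x, y, hxy⟩ := hxy
  have hpos : 0 < ℓ := hp.out.pos
  have : NeZero ℓ := ⟨hpos.ne'⟩
  let Φ : Subgroup V := (powMonoidHom ℓ : V →* V).range
  have hΦ : ∀ z : V, z ∈ Φ ↔ ∃ w, z = w ^ ℓ := by
    intro z
    constructor
    · rintro ⟨w, rfl⟩; exact ⟨w, rfl⟩
    · rintro ⟨w, rfl⟩; exact ⟨w, rfl⟩
  let g : Fin ℓ × Fin ℓ → V ⧸ Φ := fun t => QuotientGroup.mk (x ^ (t.1 : ℕ) * y ^ (t.2 : ℕ))
  let f : Fin ℓ × Fin ℓ → V ⧸ Φ := fun t => QuotientGroup.mk (u ^ (t.1 : ℕ) * k ^ (t.2 : ℕ))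
  have hmod : ∀ m : ℤ, ∃ (n : Fin ℓ) (d : ℤ), m = (n : ℕ) + ℓ * d := by
    intro m
    have h0 : (0 : ℤ) ≤ m % ℓ := Int.emod_nonneg _ (by exact_mod_cast hpos.ne')
    have h1 : m % ℓ < ℓ := Int.emod_lt_of_pos _ (by exact_mod_cast hpos)
    refine ⟨⟨(m % ℓ).toNat, by omega⟩, m / ℓ, ?_⟩
    show m = ((m % ℓ).toNat : ℤ) + ℓ * (m / ℓ)
    rw [Int.toNat_of_nonneg h0]
    exact (Int.emod_add_mul_ediv m ℓ).symm
  have hg : Function.Surjective g := by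
    intro t
    obtain ⟨z, rfl⟩ := QuotientGroup.mk_surjective t
    have hz : z ∈ Subgroup.closure {x, y} := by rw [← hxy]; trivial
    obtain ⟨m, n, hmn⟩ := Subgroup.mem_closure_pair.1 hz
    obtain ⟨m', d, hm⟩ := hmod m
    obtain ⟨n', d', hn⟩ := hmod n
    refine ⟨(m', n'), ?_⟩
    show (QuotientGroup.mk (x ^ (m' : ℕ) * y ^ (n' : ℕ)) : V ⧸ Φ) = QuotientGroup.mk z
    rw [QuotientGroup.eq, hΦ]
    refine ⟨x ^ d * y ^ d', ?_⟩
    rw [← hmn, hm, hn, mul_pow, ← zpow_natCast (x ^ d), ← zpow_natCast (y ^ d'), ← zpow_mul,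
      ← zpow_mul, zpow_add, zpow_add, zpow_natCast, zpow_natCast, mul_comm d, mul_comm d', r1]
  have hf : Function.Injective f := by
    rintro ⟨i, j⟩ ⟨i', j'⟩ hij
    have h1 : (QuotientGroup.mk (u ^ (i : ℕ) * k ^ (j : ℕ)) : V ⧸ Φ) =
      QuotientGroup.mk (u ^ (i' : ℕ) * k ^ (j' : ℕ)) := hij
    rw [QuotientGroup.eq, hΦ] at h1
    obtain ⟨w, hw⟩ := h1
    have h2 : u ^ (((i' : ℕ) : ℤ) - (i : ℕ)) * k ^ (((j' : ℕ) : ℤ) - (j : ℕ)) = w ^ ℓ := by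
      rw [← hw, zpow_sub, zpow_sub, zpow_natCast, zpow_natCast, zpow_natCast, zpow_natCast, mul_inv]
      simp only [mul_comm, mul_left_comm, mul_assoc]
    obtain ⟨⟨d, hd⟩, ⟨d', hd'⟩⟩ := h _ _ _ h2
    have hi := i.2
    have hi' := i'.2
    have hj := j.2
    have hj' := j'.2
    have e1 : d = 0 := by
      by_contra hne
      rcases lt_or_gt_of_ne hne with h0 | h0 <;> nlinarith
    have e2 : d' = 0 := by
      by_contra hne
      rcases lt_or_gt_of_ne hne with h0 | h0 <;> nlinarith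
    subst e1; subst e2
    simp only [mul_zero] at hd hd'
    have a1 : (i : ℕ) = i' := by omega
    have a2 : (j : ℕ) = j' := by omega
    rw [Fin.ext a1, Fin.ext a2]
  have hcard : Nat.card (V ⧸ Φ) ≤ Nat.card (Fin ℓ × Fin ℓ) := Nat.card_le_card_of_surjective g hg
  have hbij : Function.Bijective f := hf.bijective_of_nat_card_le hcard
  obtain ⟨⟨i, j⟩, hij⟩ := hbij.2 (QuotientGroup.mk v)
  have h3 : (QuotientGroup.mk (u ^ (i : ℕ) * k ^ (j : ℕ)) : V ⧸ Φ) = QuotientGroup.mk v := hij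
  rw [QuotientGroup.eq, hΦ] at h3
  obtain ⟨w, hw⟩ := h3
  refine ⟨(i : ℕ), (j : ℕ), w, ?_⟩
  rw [zpow_natCast, zpow_natCast, ← hw, mul_inv_cancel_left]

/-- two independent elements generate -/
theorem gen3 {V : Type} [CommGroup V] [Finite V] (ℓ a : ℕ) [hp : Fact ℓ.Prime]
    (hexp : Monoid.exponent V = ℓ ^ a)
    (hxy : ∃ x y : V, (⊤ : Subgroup V) = Subgroup.closure {x, y}) (u k : V)
    (h : ∀ (i j : ℤ) (v : V), u ^ i * k ^ j = v ^ ℓ → (ℓ : ℤ) ∣ i ∧ (ℓ : ℤ) ∣ j) (v : V) :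
    ∃ (i j : ℤ), v = u ^ i * k ^ j := by
  have key : ∀ n : ℕ, ∀ v : V, ∃ (i j : ℤ) (w : V), v = u ^ i * k ^ j * w ^ ℓ ^ n := by
    intro n
    induction n with
    | zero => intro v; exact ⟨0, 0, v, by simp⟩
    | succ n ih =>
      intro v
      obtain ⟨i, j, w, hw⟩ := ih v
      obtain ⟨i', j', w', hw'⟩ := gen2 ℓ hxy u k h w
      refine ⟨i + i' * (ℓ ^ n : ℕ), j + j' * (ℓ ^ n : ℕ), w', ?_⟩
      conv_lhs => rw [hw, hw']
      rw [mul_pow, mul_pow, ← pow_mul, ← pow_succ', zpow_add, zpow_add, zpow_mul, zpow_mul,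
        zpow_natCast, zpow_natCast]
      simp only [mul_comm, mul_left_comm, mul_assoc]
  obtain ⟨i, j, w, hw⟩ := key a v
  exact ⟨i, j, by rw [hw, pow_exp hexp, mul_one]⟩

/-- an element of `E` which is trivial modulo the powers is trivial -/
theorem triv (hC : CprStmt) (ℓ : ℕ) [Fact ℓ.Prime] (V : Type) [CommGroup V] [Finite V] (a : ℕ)
    (hexp : Monoid.exponent V = ℓ ^ a) (E : Subgroup (MulAut V)) (hE : ¬ ℓ ∣ Nat.card E)
    (s : MulAut V) (hs : s ∈ E) (h : ∀ v : V, ∃ w, s v = v * w ^ ℓ) : s = 1 := by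
  let T : Subgroup (MulAut V) :=
    { carrier := {s | s ∈ E ∧ ∀ v : V, ∃ w, s v = v * w ^ ℓ}
      one_mem' := ⟨E.one_mem, fun v => ⟨1, by simp⟩⟩
      mul_mem' := by
        rintro s t ⟨hs, h1⟩ ⟨ht, h2⟩
        refine ⟨E.mul_mem hs ht, fun v => ?_⟩
        obtain ⟨w, hw⟩ := h2 v
        obtain ⟨z, hz⟩ := h1 v
        exact ⟨z * s w, by rw [MulAut.mul_apply, hw, map_mul, hz, map_pow, mul_pow, mul_assoc]⟩
      inv_mem' := by
        rintro s ⟨hs, h1⟩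
        refine ⟨E.inv_mem hs, fun v => ?_⟩
        obtain ⟨w, hw⟩ := h1 v
        refine ⟨(s⁻¹ w)⁻¹, ?_⟩
        have h : s⁻¹ (s v) = s⁻¹ (v * w ^ ℓ) := by rw [hw]
        rw [MulAut.inv_apply_self, map_mul, map_pow] at h
        rw [inv_pow]
        exact eq_mul_inv_of_mul_eq h.symm }
  have hTE : T ≤ E := fun _ h => h.1
  have hT : T = ⊥ := (hC ℓ V a hexp T fun h' =>
    hE (h'.trans (Subgroup.card_dvd_of_le hTE))).2 fun s hs => hs.2
  have : s ∈ T := ⟨hs, h⟩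
  rw [hT] at this
  exact Subgroup.mem_bot.1 this

/-- trivial on two generators modulo the powers -/
theorem triv2 (hC : CprStmt) (ℓ : ℕ) [Fact ℓ.Prime] (V : Type) [CommGroup V] [Finite V] (a : ℕ)
    (hexp : Monoid.exponent V = ℓ ^ a) (E : Subgroup (MulAut V)) (hE : ¬ ℓ ∣ Nat.card E)
    (u k : V) (hgen : ∀ v : V, ∃ i j : ℤ, v = u ^ i * k ^ j)
    (s : MulAut V) (hs : s ∈ E) (h1 : ∃ w, s u = u * w ^ ℓ) (h2 : ∃ w, s k = k * w ^ ℓ) :
    s = 1 := by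
  refine triv hC ℓ V a hexp E hE s hs fun v => ?_
  obtain ⟨i, j, rfl⟩ := hgen v
  obtain ⟨w, hw⟩ := h1
  obtain ⟨w', hw'⟩ := h2
  refine ⟨w ^ i * w' ^ j, ?_⟩
  rw [map_mul, map_zpow, map_zpow, hw, hw', mul_zpow, mul_zpow, mul_pow, ← zpow_natCast w,
    ← zpow_natCast w', ← zpow_natCast (w ^ i), ← zpow_natCast (w' ^ j), ← zpow_mul, ← zpow_mul,
    ← zpow_mul, ← zpow_mul, mul_comm (ℓ : ℤ), mul_comm (ℓ : ℤ)]
  simp only [mul_comm, mul_left_comm, mul_assoc]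

/-- the unipotent part is trivial -/
theorem unip (hC : CprStmt) (ℓ : ℕ) [hp : Fact ℓ.Prime] (V : Type) [CommGroup V] [Finite V] (b : ℕ)
    (hexp : Monoid.exponent V = ℓ ^ (b + 1)) (E : Subgroup (MulAut V)) (hE : ¬ ℓ ∣ Nat.card E)
    (u k : V) (hu : orderOf u = ℓ ^ (b + 1)) (hkb : k ^ ℓ ^ b = 1)
    (hgen : ∀ v : V, ∃ i j : ℤ, v = u ^ i * k ^ j)
    (c : MulAut V) (hc : c ∈ E) (h1 : c (u ^ ℓ ^ b) = u ^ ℓ ^ b) (h2 : ∃ w, c k = k * w ^ ℓ) :
    c = 1 := by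
  obtain ⟨α, β, hαβ⟩ := hgen (c u)
  obtain ⟨z, hz⟩ := h2
  have hα : (ℓ : ℤ) ∣ α - 1 := by
    rw [map_pow, hαβ, mul_pow, ← zpow_natCast (k ^ β), ← zpow_mul, mul_comm β, zpow_mul,
      zpow_natCast, hkb, one_zpow, mul_one, ← zpow_natCast (u ^ α), ← zpow_mul,
      ← zpow_natCast u (ℓ ^ b)] at h1
    have h3 : u ^ ((α - 1) * ((ℓ ^ b : ℕ) : ℤ)) = 1 := by
      rw [sub_mul, one_mul, zpow_sub, h1, mul_inv_cancel]
    have h4 := orderOf_dvd_iff_zpow_eq_one.2 h3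
    rw [hu, pow_succ'] at h4
    push_cast at h4
    exact Int.dvd_of_mul_dvd_mul_right (by have := hp.out.pos; positivity) h4
  obtain ⟨d, hd⟩ := hα
  have hα' : α = 1 + ℓ * d := by linarith
  have hcu : c u = u * k ^ β * (u ^ d) ^ ℓ := by
    rw [hαβ, hα', zpow_add, zpow_one, ← zpow_natCast (u ^ d), ← zpow_mul, mul_comm d]
    simp only [mul_comm, mul_left_comm, mul_assoc]
  have key : ∀ n : ℕ, (∃ x : V, (c ^ n) u = u * (k ^ β) ^ n * x ^ ℓ) ∧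
      (∃ y : V, (c ^ n) k = k * y ^ ℓ) := by
    intro n
    induction n with
    | zero => exact ⟨⟨1, by simp⟩, ⟨1, by simp⟩⟩
    | succ n ih =>
      obtain ⟨⟨x, hx⟩, ⟨y, hy⟩⟩ := ih
      constructor
      · refine ⟨x * y ^ β * (c ^ n) (u ^ d), ?_⟩
        rw [pow_succ, MulAut.mul_apply, hcu, map_mul, map_mul, hx, map_zpow, hy, map_pow,
          mul_zpow, mul_pow, mul_pow, pow_succ, ← zpow_natCast y ℓ, ← zpow_mul,
          ← zpow_natCast (y ^ β) ℓ, ← zpow_mul, mul_comm β]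
        simp only [mul_comm, mul_left_comm, mul_assoc]
      · refine ⟨y * (c ^ n) z, ?_⟩
        rw [pow_succ, MulAut.mul_apply, hz, map_mul, hy, map_pow, mul_pow, mul_assoc]
  have hcl : c ^ ℓ = 1 := by
    obtain ⟨⟨x, hx⟩, h4⟩ := key ℓ
    refine triv2 hC ℓ V _ hexp E hE u k hgen (c ^ ℓ) (E.pow_mem hc ℓ) ⟨k ^ β * x, ?_⟩ h4
    rw [hx, mul_pow, mul_assoc]
  have ho : orderOf c ∣ ℓ := orderOf_dvd_of_pow_eq_one hcl
  rcases (Nat.dvd_prime hp.out).1 ho with h5 | h5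
  · exact orderOf_eq_one_iff.1 h5
  · exfalso
    apply hE
    have h6 : orderOf (⟨c, hc⟩ : E) = ℓ := by rw [← h5]; exact Subgroup.orderOf_mk c hc
    rw [← h6]
    exact orderOf_dvd_natCard _

theorem rgb (hC : CprStmt) : RgbStmt := by
  intro ℓ hp V _ _ a ha hexp hxy E hE
  obtain ⟨b, rfl⟩ : ∃ b, a = b + 1 := ⟨a - 1, by omega⟩
  obtain ⟨u, hu⟩ := exists_order (V := V)
  rw [hexp] at hu
  by_cases hS : sub ℓ E u = ⊥
  · refine ⟨u, hu, fun s hs v hv => ?_⟩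
    have : s ∈ sub ℓ E u := ⟨hs, v ^ ℓ, by rw [hv, ← pow_mul, sq]⟩
    rw [hS] at this
    exact Subgroup.mem_bot.1 this
  have hSE : ¬ ℓ ∣ Nat.card (sub ℓ E u) := fun h =>
    hE (h.trans (Subgroup.card_dvd_of_le (sub_le ℓ E u)))
  obtain ⟨⟨π, hπ1, hπ2, hπ3, hπ4⟩, hlast⟩ := hC ℓ V (b + 1) hexp (sub ℓ E u) hSE
  obtain ⟨w₀, hw₀⟩ := hπ4 ℓ u fun s hs => hs.2
  have hππ : ∀ u, π (π u) = π u := fun u => hπ2 (π u) fun s hs => (hπ1 u s hs).1
  have hyne : (π u) ^ ℓ ^ b ≠ 1 := by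
    have hy1 : (π u) ^ ℓ ^ b = u ^ ℓ ^ b := by
      rw [hw₀, mul_pow, ← pow_mul, ← pow_succ', pow_exp hexp, mul_one]
    rw [hy1]
    intro h
    have h1 := orderOf_dvd_of_pow_eq_one h
    rw [hu, Nat.pow_dvd_pow_iff_le_right hp.out.one_lt] at h1
    omega
  have hu' : orderOf (π u) = ℓ ^ (b + 1) := orderOf_eq_prime_pow hyne (pow_exp hexp _)
  have hex : ∃ s ∈ sub ℓ E u, ∃ v : V, ∀ w, s v ≠ v * w ^ ℓ := by
    by_contra hcon
    push Not at hcon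
    exact hS (hlast hcon)
  obtain ⟨s₁, hs₁, v, hv⟩ := hex
  have hwne : ∀ x : V, v * (π v)⁻¹ ≠ x ^ ℓ := by
    intro x hx
    have h1 : v = π v * x ^ ℓ := by rw [← hx, mul_comm v, mul_inv_cancel_left]
    apply hv (x⁻¹ * s₁ x)
    have h2 : s₁ v = π v * (s₁ x) ^ ℓ := by
      conv_lhs => rw [h1]
      rw [map_mul, (hπ1 v s₁ hs₁).1, map_pow]
    rw [h2, mul_pow, ← mul_assoc]
    congr 1
    conv_rhs => rw [h1]
    rw [inv_pow, mul_inv_cancel_right]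
  have hπk : π (v * (π v)⁻¹) = 1 := by
    rw [map_mul, map_inv, hππ, mul_inv_cancel]
  generalize v * (π v)⁻¹ = k at hwne hπk
  -- independence
  have hind : ∀ (i j : ℤ) (v : V), (π u) ^ i * k ^ j = v ^ ℓ → (ℓ : ℤ) ∣ i ∧ (ℓ : ℤ) ∣ j := by
    intro i j v hij
    have h1 : (π u) ^ i = (π v) ^ ℓ := by
      have h2 := congrArg π hij
      rw [map_mul, map_zpow, map_zpow, hππ, hπk, one_zpow, mul_one, map_pow] at h2
      exact h2
    have h3 : (ℓ : ℤ) ∣ i := by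
      have h4 : (π u) ^ (i * ((ℓ ^ b : ℕ) : ℤ)) = 1 := by
        rw [zpow_mul, h1, zpow_natCast, ← pow_mul, ← pow_succ', pow_exp hexp]
      have h5 := orderOf_dvd_iff_zpow_eq_one.2 h4
      rw [hu', pow_succ'] at h5
      push_cast at h5
      exact Int.dvd_of_mul_dvd_mul_right (by have := hp.out.pos; positivity) h5
    refine ⟨h3, ?_⟩
    obtain ⟨d, rfl⟩ := h3
    by_contra hj
    have hcop : IsCoprime (ℓ : ℤ) j :=
      (Int.prime_iff_natAbs_prime.2 (by simpa using hp.out)).coprime_iff_not_dvd.2 hj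
    obtain ⟨r, t, hrt⟩ := hcop
    apply hwne (k ^ r * (v * (π u) ^ (-d)) ^ t)
    have h6 : k ^ j = (v * (π u) ^ (-d)) ^ ℓ := by
      rw [mul_pow, ← hij, ← zpow_natCast ((π u) ^ (-d)), ← zpow_mul, mul_comm (ℓ : ℤ) d,
        neg_mul, zpow_neg]
      rw [mul_comm _ (k ^ j), mul_inv_cancel_right]
    generalize v * (π u) ^ (-d) = w at h6 ⊢
    calc k = k ^ (r * ℓ + t * j) := by rw [hrt, zpow_one]
      _ = (k ^ r) ^ ℓ * (k ^ j) ^ t := by
          rw [zpow_add, zpow_mul, zpow_natCast, mul_comm t j, zpow_mul]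
      _ = (k ^ r * w ^ t) ^ ℓ := by
          rw [h6, mul_pow, ← zpow_natCast (w ^ t), ← zpow_natCast w, ← zpow_mul, ← zpow_mul,
            mul_comm t]
  have hgen := gen3 ℓ (b + 1) hexp hxy (π u) k hind
  by_cases hkl : k ^ ℓ = 1
  · -- Case B: `E` is abelian
    have hkb : k ^ ℓ ^ b = 1 := by
      obtain ⟨b', rfl⟩ : ∃ b', b = b' + 1 := ⟨b - 1, by omega⟩
      rw [pow_succ', pow_mul, hkl, one_pow]
    have hA : ∀ g ∈ E, ∃ α : ℤ, g ((π u) ^ ℓ ^ b) = ((π u) ^ ℓ ^ b) ^ α := by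
      intro g _
      obtain ⟨α, β, hαβ⟩ := hgen (g (π u))
      refine ⟨α, ?_⟩
      rw [map_pow, hαβ, mul_pow, ← zpow_natCast (k ^ β), ← zpow_mul, mul_comm β, zpow_mul,
        zpow_natCast, hkb, one_zpow, mul_one, ← zpow_natCast ((π u) ^ α), ← zpow_mul,
        mul_comm α, zpow_mul, zpow_natCast]
    have hB : ∀ g ∈ E, ∃ (μ : ℤ) (z : V), g k = k ^ μ * z ^ ℓ := by
      intro g _
      obtain ⟨α, β, hαβ⟩ := hgen (g k)
      have h1 : (g k) ^ ℓ ^ b = 1 := by rw [← map_pow, hkb, map_one]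
      have h2 : (ℓ : ℤ) ∣ α := by
        have h4 : (π u) ^ (α * ((ℓ ^ b : ℕ) : ℤ)) = 1 := by
          rw [hαβ, mul_pow, ← zpow_natCast (k ^ β), ← zpow_mul, mul_comm β, zpow_mul,
            zpow_natCast, hkb, one_zpow, mul_one, ← zpow_natCast ((π u) ^ α), ← zpow_mul] at h1
          exact h1
        have h5 := orderOf_dvd_iff_zpow_eq_one.2 h4
        rw [hu', pow_succ'] at h5
        push_cast at h5
        exact Int.dvd_of_mul_dvd_mul_right (by have := hp.out.pos; positivity) h5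
      obtain ⟨d, rfl⟩ := h2
      refine ⟨β, (π u) ^ d, ?_⟩
      rw [hαβ, ← zpow_natCast ((π u) ^ d), ← zpow_mul, mul_comm d, mul_comm]
    have hab : ∀ s ∈ E, ∀ t ∈ E, s * t = t * s := by
      intro s hs t ht
      have h1 : (t * s)⁻¹ * (s * t) = 1 := by
        refine unip hC ℓ V b hexp E hE (π u) k hu' hkb hgen _
          (E.mul_mem (E.inv_mem (E.mul_mem ht hs)) (E.mul_mem hs ht)) ?_ ?_
        · obtain ⟨α, hα⟩ := hA s hs
          obtain ⟨α', hα'⟩ := hA t ht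
          rw [MulAut.mul_apply, MulAut.mul_apply, hα', map_zpow, hα]
          have h2 : (t * s) ((π u) ^ ℓ ^ b) = (((π u) ^ ℓ ^ b) ^ α) ^ α' := by
            rw [MulAut.mul_apply, hα, map_zpow, hα', ← zpow_mul, ← zpow_mul, mul_comm]
          rw [← h2, MulAut.inv_apply_self]
        · obtain ⟨μ, z, hz⟩ := hB s hs
          obtain ⟨μ', z', hz'⟩ := hB t ht
          have h2 : (s * t) k = k ^ (μ * μ') * (z ^ μ' * s z') ^ ℓ := by
            rw [MulAut.mul_apply, hz', map_mul, map_zpow, hz, map_pow, mul_zpow, mul_pow,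
              ← zpow_mul, ← zpow_natCast z ℓ, ← zpow_mul, ← zpow_natCast (z ^ μ') ℓ, ← zpow_mul,
              mul_comm (ℓ : ℤ), mul_assoc]
          have h3 : (t * s) k = k ^ (μ * μ') * (z' ^ μ * t z) ^ ℓ := by
            rw [MulAut.mul_apply, hz, map_mul, map_zpow, hz', map_pow, mul_zpow, mul_pow,
              ← zpow_mul, ← zpow_natCast z' ℓ, ← zpow_mul, ← zpow_natCast (z' ^ μ) ℓ, ← zpow_mul,
              mul_comm (ℓ : ℤ), mul_assoc, mul_comm μ' μ]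
          have h4 : (s * t) k = (t * s) k * ((z' ^ μ * t z)⁻¹ * (z ^ μ' * s z')) ^ ℓ := by
            rw [h2, h3]
            exact r2 _ _ _ _
          refine ⟨(t * s)⁻¹ ((z' ^ μ * t z)⁻¹ * (z ^ μ' * s z')), ?_⟩
          rw [MulAut.mul_apply, h4, map_mul, MulAut.inv_apply_self, map_pow]
      exact (inv_mul_eq_one.1 h1).symm
    obtain ⟨y, hy, hreg⟩ := rga hC ℓ V (b + 1) (by omega) hexp E hE hab
    refine ⟨y, hy, fun s hs v hv => hreg s hs (v ^ ℓ) ?_⟩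
    rw [hv, ← pow_mul, sq]
  · -- Case A
    have hK : ∀ v : V, π v = 1 → ∃ j : ℤ, v = k ^ j := by
      intro v hv
      obtain ⟨i, j, hij⟩ := hgen v
      refine ⟨j, ?_⟩
      have h1 := congrArg π hij
      rw [hv, map_mul, map_zpow, map_zpow, hππ, hπk, one_zpow, mul_one] at h1
      rw [hij, ← h1, one_mul]
    refine ⟨π u * k ^ ℓ, ?_, ?_⟩
    · apply orderOf_eq_prime_pow _ (pow_exp hexp _)
      rw [mul_pow, ← pow_mul, ← pow_succ', pow_exp hexp, mul_one]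
      exact hyne
    · intro s hs v hv
      have hsS : s ∈ sub ℓ E u := by
        refine ⟨hs, w₀ * (k * v ^ ℓ * (s k)⁻¹) * (s w₀)⁻¹, ?_⟩
        have h1 : s (π u) = π u * (k * v ^ ℓ * (s k)⁻¹) ^ ℓ := by
          have h2 : s (π u) * (s k) ^ ℓ = π u * k ^ ℓ * v ^ ℓ ^ 2 := by
            rw [← hv, map_mul, map_pow]
          rw [eq_mul_inv_of_mul_eq h2, mul_pow, mul_pow, inv_pow, ← pow_mul, sq]
          simp only [mul_assoc]
        have h3 : u = π u * (w₀⁻¹) ^ ℓ := by rw [hw₀, inv_pow, mul_inv_cancel_right]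
        have h4 : s u = π u * (k * v ^ ℓ * (s k)⁻¹) ^ ℓ * ((s w₀)⁻¹) ^ ℓ := by
          conv_lhs => rw [h3]
          rw [map_mul, h1, map_pow, map_inv]
        rw [h4, hw₀, mul_pow (w₀ * _), mul_pow w₀]
        simp only [mul_assoc]
      have hsu : s (π u) = π u := (hπ1 u s hsS).1
      have hsk : π (s k) = 1 := by rw [(hπ1 k s hsS).2, hπk]
      obtain ⟨μ, hμ⟩ := hK (s k) hsk
      obtain ⟨n, hn⟩ := hK (v * (π v)⁻¹) (by rw [map_mul, map_inv, hππ, mul_inv_cancel])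
      have h1 : (s k) ^ ℓ = k ^ ℓ * v ^ ℓ ^ 2 := by
        rw [map_mul, hsu, map_pow, mul_assoc] at hv
        exact mul_left_cancel hv
      have h2 : (π v) ^ ℓ ^ 2 = 1 := by
        have h3 := congrArg π h1
        rw [map_pow, hsk, one_pow, map_mul, map_pow, hπk, one_pow, one_mul, map_pow] at h3
        exact h3.symm
      have h4 : v ^ ℓ ^ 2 = k ^ (n * ((ℓ ^ 2 : ℕ) : ℤ)) := by
        rw [zpow_mul, ← hn, zpow_natCast, mul_pow, inv_pow, h2, inv_one, mul_one]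
      have h5 : k ^ ((ℓ : ℤ) * (μ - 1 - ℓ * n)) = 1 := by
        have h6 : k ^ (μ * ℓ) = k ^ ((ℓ : ℤ) + n * ((ℓ ^ 2 : ℕ) : ℤ)) := by
          rw [zpow_mul, ← hμ, zpow_natCast, h1, h4, zpow_add, zpow_natCast]
        have h7 : (ℓ : ℤ) * (μ - 1 - ℓ * n) = μ * ℓ - (ℓ + n * ((ℓ ^ 2 : ℕ) : ℤ)) := by
          push_cast; ring
        rw [h7, zpow_sub, h6, mul_inv_cancel]
      have h8 : (ℓ : ℤ) ∣ μ - 1 := by
        have h9 := orderOf_dvd_iff_zpow_eq_one.2 h5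
        have h10 : orderOf k ∣ ℓ ^ (b + 1) := orderOf_dvd_of_pow_eq_one (pow_exp hexp _)
        obtain ⟨m, hm, hmk⟩ := (Nat.dvd_prime_pow hp.out).1 h10
        have hm2 : 2 ≤ m := by
          by_contra hlt
          apply hkl
          have : orderOf k ∣ ℓ := by
            rw [hmk]
            calc ℓ ^ m ∣ ℓ ^ 1 := pow_dvd_pow _ (by omega)
              _ = ℓ := pow_one _
          exact orderOf_dvd_iff_pow_eq_one.1 this
        have h11 : ((ℓ * ℓ : ℕ) : ℤ) ∣ (ℓ : ℤ) * (μ - 1 - ℓ * n) := by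
          refine dvd_trans ?_ h9
          rw [hmk, ← sq]
          exact_mod_cast pow_dvd_pow ℓ hm2
        push_cast at h11
        have h12 := Int.dvd_of_mul_dvd_mul_left (by exact_mod_cast hp.out.ne_zero) h11
        have h13 : μ - 1 = (μ - 1 - ℓ * n) + ℓ * n := by ring
        rw [h13]
        exact dvd_add h12 (dvd_mul_right _ _)
      obtain ⟨d, hd⟩ := h8
      refine triv2 hC ℓ V _ hexp E hE (π u) k hgen s hs ⟨1, by rw [hsu, one_pow, mul_one]⟩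
        ⟨k ^ d, ?_⟩
      rw [hμ, show μ = 1 + d * ℓ by linarith, zpow_add, zpow_one, zpow_mul, zpow_natCast]

end H24

end Pool.Agent.PP.T8
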