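import Pool.Agent.AT8.Stmts4
import Pool.Agent.Helper66_DF.FinE
import Pool.Agent.Helper66_AT3.Fnt

/-!
# Squad AT8, row FN8

The final theorem for characters.
-/

open scoped BigOperators

set_option autoImplicit false

noncomputable section

namespace Pool.Agent.PP.T8.H24

open Pool.Agent.Helper51_AWC Pool.Agent.Helper79_WRA Pool.Agent.PP Pool.Agent.PP.KF
open Pool.Agent.PP.K9 Pool.Agent.PP.K9.H97 Pool.Agent.PP.H75 Pool.Agent.PP.T3 Pool.Agent.PP.T2

attribute [local instance] Ideal.Quotient.field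

/-! ## Transfer of the inertial group along a homomorphism -/

/-- `P` maps `V` onto `V'` and the elements of the inertial group of `(V', γ')` act on `V'` as
elements of the inertial group of `(V, γ)` on `V`. -/
structure Tr {F F' G A : Type} [Group G] [Group A] (V : Subgroup G) (γ : G → F) (V' : Subgroup A)
    (γ' : A → F') (P : G →* A) : Prop where
  ab : ∀ x ∈ V, ∀ y ∈ V, x * y = y * x
  sur : ∀ y ∈ V', ∃ v ∈ V, P v = y
  act : ∀ t' ∈ Tg V' γ', ∃ t ∈ Tg V γ, ∀ v ∈ V, P (t * v * t⁻¹) = t' * P v * t'⁻¹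

section tr

variable {F F' G A : Type} [Group G] [Group A] {V : Subgroup G} {γ : G → F} {V' : Subgroup A}
  {γ' : A → F'} {P : G →* A}

theorem conj_mem' {t : G} (ht : t ∈ Tg V γ) {v : G} (hv : v ∈ V) : t * v * t⁻¹ ∈ V :=
  (Subgroup.mem_normalizer_iff.1 (Subgroup.mem_inf.1 ht).1 v).1 hv

theorem conj_inv {t : G} (ht : t ∈ Tg V γ) {t' : A}
    (h : ∀ v ∈ V, P (t * v * t⁻¹) = t' * P v * t'⁻¹) {v : G} (hv : v ∈ V) :
    P (t⁻¹ * v * t) = t'⁻¹ * P v * t' := by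
  have h1 : t⁻¹ * v * t ∈ V := by
    have := conj_mem' ((Tg V γ).inv_mem ht) hv
    rwa [inv_inv] at this
  have h2 := h _ h1
  have h3 : t * (t⁻¹ * v * t) * t⁻¹ = v := by group
  rw [h3] at h2
  rw [h2]
  group

/-- the inertial quotient of `V'` is abelian if that of `V` is -/
theorem Tr.abel (h : Tr V γ V' γ' P)
    (hc : ∀ s ∈ Tg V γ, ∀ t ∈ Tg V γ, s * t * s⁻¹ * t⁻¹ ∈ Subgroup.centralizer (V : Set G)) :
    ∀ s ∈ Tg V' γ', ∀ t ∈ Tg V' γ', s * t * s⁻¹ * t⁻¹ ∈ Subgroup.centralizer (V' : Set A) := by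
  intro s' hs' t' ht'
  obtain ⟨s, hs, hs1⟩ := h.act s' hs'
  obtain ⟨t, ht, ht1⟩ := h.act t' ht'
  rw [Subgroup.mem_centralizer_iff]
  intro y hy
  obtain ⟨v, hv, rfl⟩ := h.sur y hy
  have e1 : t⁻¹ * v * t ∈ V := by
    have := conj_mem' ((Tg V γ).inv_mem ht) hv
    rwa [inv_inv] at this
  have e2 : s⁻¹ * (t⁻¹ * v * t) * s ∈ V := by
    have := conj_mem' ((Tg V γ).inv_mem hs) e1
    rwa [inv_inv] at this
  have e3 := conj_mem' ht e2
  have e4 : P (s * (t * (s⁻¹ * (t⁻¹ * v * t) * s) * t⁻¹) * s⁻¹) =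
      s' * (t' * (s'⁻¹ * (t'⁻¹ * P v * t') * s') * t'⁻¹) * s'⁻¹ := by
    rw [hs1 _ e3, ht1 _ e2, conj_inv hs hs1 e1, conj_inv ht ht1 hv]
  have e5 := Subgroup.mem_centralizer_iff.1 (hc s hs t ht) v hv
  have e6 : s * (t * (s⁻¹ * (t⁻¹ * v * t) * s) * t⁻¹) * s⁻¹ = v := by
    have e7 : s * (t * (s⁻¹ * (t⁻¹ * v * t) * s) * t⁻¹) * s⁻¹ =
        (s * t * s⁻¹ * t⁻¹) * v * (s * t * s⁻¹ * t⁻¹)⁻¹ := by group
    rw [e7, ← e5, mul_inv_cancel_right]
  rw [e6] at e4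
  have e8 : s' * (t' * (s'⁻¹ * (t'⁻¹ * P v * t') * s') * t'⁻¹) * s'⁻¹ =
      (s' * t' * s'⁻¹ * t'⁻¹) * P v * (s' * t' * s'⁻¹ * t'⁻¹)⁻¹ := by group
  rw [e8] at e4
  exact mul_inv_eq_iff_eq_mul.1 e4.symm |>.symm

/-- the inertial index of `V'` is at most that of `V` -/
theorem Tr.ix_le [Finite G] (h : Tr V γ V' γ' P) : ix V' γ' ≤ ix V γ := by
  classical
  have hch : ∀ t' : Tg V' γ', ∃ t : Tg V γ, ∀ v ∈ V, P (t * v * (t : G)⁻¹) = t' * P v * (t' : A)⁻¹ :=
    fun t' => by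
      obtain ⟨t, ht, h1⟩ := h.act t' t'.2
      exact ⟨⟨t, ht⟩, h1⟩
  choose τ hτ using hch
  unfold ix
  rw [Subgroup.relIndex, Subgroup.relIndex, Subgroup.index, Subgroup.index]
  have : Finite (Tg V γ) := Subtype.finite
  refine Nat.card_le_card_of_injective
    (fun a : Tg V' γ' ⧸ (Subgroup.centralizer (V' : Set A)).subgroupOf (Tg V' γ') =>
      (QuotientGroup.mk (τ a.out) :
        Tg V γ ⧸ (Subgroup.centralizer (V : Set G)).subgroupOf (Tg V γ))) ?_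
  intro a b hab
  have h1 : (QuotientGroup.mk (τ a.out) :
      Tg V γ ⧸ (Subgroup.centralizer (V : Set G)).subgroupOf (Tg V γ)) =
      QuotientGroup.mk (τ b.out) := hab
  rw [QuotientGroup.eq, Subgroup.mem_subgroupOf] at h1
  have h2 : (QuotientGroup.mk a.out :
      Tg V' γ' ⧸ (Subgroup.centralizer (V' : Set A)).subgroupOf (Tg V' γ')) =
      QuotientGroup.mk b.out := by
    rw [QuotientGroup.eq, Subgroup.mem_subgroupOf, Subgroup.mem_centralizer_iff]
    intro y hy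
    obtain ⟨v, hv, rfl⟩ := h.sur y hy
    have e1 := hτ a.out v hv
    have e2 := hτ b.out v hv
    have e3 := Subgroup.mem_centralizer_iff.1 h1 v hv
    have e4 : ((τ a.out : Tg V γ) : G) * v * ((τ a.out : Tg V γ) : G)⁻¹ =
        ((τ b.out : Tg V γ) : G) * v * ((τ b.out : Tg V γ) : G)⁻¹ := by
      have e5 : v * (((τ a.out : Tg V γ) : G)⁻¹ * ((τ b.out : Tg V γ) : G)) =
          (((τ a.out : Tg V γ) : G)⁻¹ * ((τ b.out : Tg V γ) : G)) * v := e3
      have e6 : ((τ a.out : Tg V γ) : G) * (v * (((τ a.out : Tg V γ) : G)⁻¹ *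
          ((τ b.out : Tg V γ) : G))) * ((τ b.out : Tg V γ) : G)⁻¹ =
          ((τ a.out : Tg V γ) : G) * ((((τ a.out : Tg V γ) : G)⁻¹ *
          ((τ b.out : Tg V γ) : G)) * v) * ((τ b.out : Tg V γ) : G)⁻¹ := by rw [e5]
      have e7 : ((τ a.out : Tg V γ) : G) * (v * (((τ a.out : Tg V γ) : G)⁻¹ *
          ((τ b.out : Tg V γ) : G))) * ((τ b.out : Tg V γ) : G)⁻¹ =
          ((τ a.out : Tg V γ) : G) * v * ((τ a.out : Tg V γ) : G)⁻¹ := by group
      have e8 : ((τ a.out : Tg V γ) : G) * ((((τ a.out : Tg V γ) : G)⁻¹ *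
          ((τ b.out : Tg V γ) : G)) * v) * ((τ b.out : Tg V γ) : G)⁻¹ =
          ((τ b.out : Tg V γ) : G) * v * ((τ b.out : Tg V γ) : G)⁻¹ := by group
      rw [e7, e8] at e6
      exact e6
    rw [e4, e2] at e1
    -- `b v b⁻¹ = a v a⁻¹`
    show P v * (((a.out : Tg V' γ') : A)⁻¹ * ((b.out : Tg V' γ') : A)) =
      (((a.out : Tg V' γ') : A)⁻¹ * ((b.out : Tg V' γ') : A)) * P v
    have e9 : ((b.out : Tg V' γ') : A) * P v =
        ((a.out : Tg V' γ') : A) * P v * ((a.out : Tg V' γ') : A)⁻¹ * ((b.out : Tg V' γ') : A) := by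
      rw [← e1, inv_mul_cancel_right]
    rw [mul_assoc (((a.out : Tg V' γ') : A)⁻¹), e9]
    group
  rwa [QuotientGroup.out_eq', QuotientGroup.out_eq'] at h2

/-- the product of the conjugates -/
theorem Tr.fix (h : Tr V γ V' γ' P) {t : G} (ht : t ∈ Tg V γ) {t' : A}
    (h1 : ∀ v ∈ V, P (t * v * t⁻¹) = t' * P v * t'⁻¹) {v : G} (hv : v ∈ V)
    (h2 : t' * P v = P v * t') {m : ℕ} (hm : t ^ m ∈ Subgroup.centralizer (V : Set G)) :
    ∃ w ∈ V, t * w = w * t ∧ P w = P v ^ m := by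
  have hmem : ∀ i : ℕ, t ^ i * v * (t ^ i)⁻¹ ∈ V := fun i => conj_mem' ((Tg V γ).pow_mem ht i) hv
  have hP : ∀ i : ℕ, P (t ^ i * v * (t ^ i)⁻¹) = P v := by
    intro i
    induction i with
    | zero => simp
    | succ i ih =>
      have e1 : t ^ (i + 1) * v * (t ^ (i + 1))⁻¹ = t * (t ^ i * v * (t ^ i)⁻¹) * t⁻¹ := by
        rw [pow_succ']
        group
      rw [e1, h1 _ (hmem i), ih, h2, mul_inv_cancel_right]
  have key : ∀ i : ℕ, ∃ w ∈ V, v * (t * w * t⁻¹) = w * (t ^ i * v * (t ^ i)⁻¹) ∧ P w = P v ^ i := by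
    intro i
    induction i with
    | zero => exact ⟨1, V.one_mem, by simp, by simp⟩
    | succ i ih =>
      obtain ⟨w, hw, hw1, hw2⟩ := ih
      refine ⟨w * (t ^ i * v * (t ^ i)⁻¹), V.mul_mem hw (hmem i), ?_, ?_⟩
      · have e1 : v * (t * (w * (t ^ i * v * (t ^ i)⁻¹)) * t⁻¹) =
            v * (t * w * t⁻¹) * (t * (t ^ i * v * (t ^ i)⁻¹) * t⁻¹) := by group
        have e2 : t * (t ^ i * v * (t ^ i)⁻¹) * t⁻¹ = t ^ (i + 1) * v * (t ^ (i + 1))⁻¹ := by
          rw [pow_succ']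
          group
        rw [e1, hw1, e2]
      · rw [map_mul, hw2, hP, pow_succ]
  obtain ⟨w, hw, hw1, hw2⟩ := key m
  refine ⟨w, hw, ?_, hw2⟩
  have e3 : t ^ m * v * (t ^ m)⁻¹ = v := by
    rw [← Subgroup.mem_centralizer_iff.1 hm v hv, mul_inv_cancel_right]
  rw [e3, h.ab w hw v hv] at hw1
  have e4 := mul_left_cancel hw1
  exact mul_inv_eq_iff_eq_mul.1 e4

end tr

/-- a power of an element of the inertial group is in the centraliser -/
theorem pow_ix {F G : Type} [Group G] {V : Subgroup G} {γ : G → F} {t : G}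
    (ht : t ∈ Tg V γ) : t ^ ix V γ ∈ Subgroup.centralizer (V : Set G) := by
  have hn : ((Subgroup.centralizer (V : Set G)).subgroupOf (Tg V γ)).Normal := by
    constructor
    rintro ⟨c, hcT⟩ hc ⟨s, hs⟩
    rw [Subgroup.mem_subgroupOf, Subgroup.mem_centralizer_iff] at hc ⊢
    intro v hv
    have e1 : s⁻¹ * v * s ∈ V := by
      have := conj_mem' ((Tg V γ).inv_mem hs) hv
      rwa [inv_inv] at this
    have e2 : s⁻¹ * v * s * c = c * (s⁻¹ * v * s) := hc _ e1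
    show v * (s * c * s⁻¹) = s * c * s⁻¹ * v
    have e3 : v * (s * c * s⁻¹) = s * (s⁻¹ * v * s * c) * s⁻¹ := by group
    rw [e3, e2]
    group
  have h1 := Subgroup.pow_index_mem ((Subgroup.centralizer (V : Set G)).subgroupOf (Tg V γ))
    ⟨t, ht⟩
  rw [Subgroup.mem_subgroupOf] at h1
  exact h1

/-- the order of the inertial group -/
theorem card_Tg {ℓ : ℕ} {F : Type} [Field F] {G : Type} [Group G] [Finite G] {e : G → F}
    {V : Subgroup G} {γ : G → F} (h : Ld ℓ e V γ) :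
    ix V γ * Nat.card (Subgroup.centralizer (V : Set G)) = Nat.card (Tg V γ) := by
  unfold ix
  rw [mul_comm]
  have := Subgroup.card_mul_index ((Subgroup.centralizer (V : Set G)).subgroupOf (Tg V γ))
  rw [Nat.card_congr (Subgroup.subgroupOfEquivOfLe (T3.H66.cent_le_Tg h)).toEquiv] at this
  exact this

theorem fn8 (hF : FltStmt) (hZ : DzaStmt) (hQ : Qt3Stmt) (hInx : K9.InxStmt) (hT : T8aStmt) :
    Fn8Stmt := by
  intro ℓ hfact M _ hM h2l G _ _ hc χ hχ D hD hab θ hθ A _ _ p hsurj hker a hexp hty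
  have hℓ := hfact.out
  have hGF : GoodF ℓ (FF M) := H50.fld ℓ hℓ M hM
  obtain ⟨e, he, h1, h2⟩ := H50.bid ℓ hℓ M hM G χ hχ
  have hn : (opCore ℓ G).Normal := H75.opCore_normal (A := G) ℓ
  have hkp : IsPGroup ℓ p.ker := by
    rw [hker]
    exact H75.opCore_isPGroup hℓ
  have hkc : p.ker ≤ Subgroup.center G := by
    rw [hker]
    exact hc
  have heq := H75.altSum_central H20.nls H20.brm H63.smt H94.nch
    (H50.dic H20.ibn H20.nls H20.brm) hℓ M hM hGF hsurj hker hkp hkc χ hχ e he h1 h2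
  obtain ⟨hbf, hZD, hcardD, γ₀, hγ₀⟩ := hZ ℓ M hM G hc χ hχ D hD (fun x hx y hy => by
    rw [hab x hx y hy, mul_inv_cancel_right, mul_inv_cancel]
    exact (opCore ℓ G).one_mem) e he h1 A p hsurj hker
  obtain ⟨γ, hγ, hTg⟩ := hF ℓ M hM G χ hχ e he h1 D hD hab θ hθ
  have hIn : ∀ n : ℕ, In M D θ n → ix D γ < n := by
    intro n hI
    have e2 : (Iner M D θ).ncard = Nat.card (Tg D γ) := by
      rw [← hTg]
      rfl
    unfold In at hI
    rw [e2, ← card_Tg hγ] at hI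
    exact Nat.lt_of_mul_lt_mul_right hI
  have hmemT : ∀ t, t ∈ Tg D γ ↔ t ∈ Iner M D θ := by
    intro t
    rw [← hTg]
    rfl
  -- the normaliser of the core
  obtain ⟨q, hq⟩ : ∃ q : Subgroup.normalizer (opCore ℓ G : Set G) →* A,
      q = p.comp (Subgroup.normalizer (opCore ℓ G : Set G)).subtype := ⟨_, rfl⟩
  have hnt : Subgroup.normalizer (opCore ℓ G : Set G) = ⊤ :=
    Subgroup.normalizer_eq_top (opCore ℓ G)
  have hqs : Function.Surjective q := by
    intro y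
    obtain ⟨x, hx⟩ := hsurj y
    refine ⟨⟨x, hnt ▸ Subgroup.mem_top x⟩, ?_⟩
    rw [hq]
    exact hx
  have hqk : q.ker = (opCore ℓ G).subgroupOf (Subgroup.normalizer (opCore ℓ G : Set G)) := by
    ext x
    rw [MonoidHom.mem_ker, Subgroup.mem_subgroupOf, hq]
    have h3 : (x : G) ∈ p.ker ↔ (x : G) ∈ opCore ℓ G := by rw [hker]
    rw [← h3, MonoidHom.mem_ker]
    rfl
  have hbr : br (opCore ℓ G) e = e := by
    funext t
    unfold br
    rw [if_pos]
    rw [Subgroup.mem_centralizer_iff]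
    intro z hz
    exact (Subgroup.mem_center_iff.1 (hc hz) t).symm
  have hpq : push q (fun t : Subgroup.normalizer (opCore ℓ G : Set G) => br (opCore ℓ G) e t) =
      push p e := by
    classical
    have := Fintype.ofFinite G
    have := Fintype.ofFinite (Subgroup.normalizer (opCore ℓ G : Set G))
    rw [hbr]
    funext y
    rw [push_eq, push_eq]
    refine Fintype.sum_bijective
      (fun x : Subgroup.normalizer (opCore ℓ G : Set G) => (x : G))
      ⟨Subtype.val_injective, fun g => ⟨⟨g, hnt ▸ Subgroup.mem_top g⟩, rfl⟩⟩ _ _ fun x => ?_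
    rw [hq]
    rfl
  have hmap : (D.subgroupOf (Subgroup.normalizer (opCore ℓ G : Set G))).map q = D.map p := by
    ext y
    constructor
    · rintro ⟨x, hx, rfl⟩
      rw [hq]
      exact ⟨x, Subgroup.mem_subgroupOf.1 hx, rfl⟩
    · rintro ⟨x, hx, rfl⟩
      refine ⟨⟨x, hnt ▸ Subgroup.mem_top x⟩, Subgroup.mem_subgroupOf.2 hx, ?_⟩
      rw [hq]
      rfl
  obtain ⟨γ', hV', n, hnD, hact⟩ := hQ ℓ M hM G e D γ hγ (opCore ℓ G) hZD A q hqs hqk (push p e)
    hbf (by rw [hpq]; exact hbf.1.2) (by rw [hmap]; exact hγ₀.tp)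
  rw [hmap] at hV' hact
  have hnD' : ∀ v, v ∈ D ↔ n * v * n⁻¹ ∈ D := Subgroup.mem_normalizer_iff.1 hnD
  -- the transfer
  have hTr : Tr D γ (D.map p) γ' (p.comp (MulAut.conj n).toMonoidHom) := by
    refine ⟨hab, ?_, ?_⟩
    · rintro y ⟨x, hx, rfl⟩
      refine ⟨n⁻¹ * x * n, ?_, ?_⟩
      · rw [hnD']
        have e1 : n * (n⁻¹ * x * n) * n⁻¹ = x := by group
        rw [e1]
        exact hx
      · show p (n * (n⁻¹ * x * n) * n⁻¹) = p x
        congr 1
        group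
    · intro t' ht'
      obtain ⟨t, ht, h3⟩ := hact t' ht'
      refine ⟨t, ht, fun v hv => ?_⟩
      have h4 := h3 v hv ⟨n * v * n⁻¹, hnt ▸ Subgroup.mem_top _⟩
        ⟨n * (t * v * t⁻¹) * n⁻¹, hnt ▸ Subgroup.mem_top _⟩ rfl rfl
      rw [hq] at h4
      exact h4
  have hixle : ix (D.map p) γ' ≤ ix D γ := hTr.ix_le
  have hcop : ¬ ℓ ∣ ix D γ := hInx ℓ M hM G e he D hγ.tp hab γ hγ.gam.supp hγ.gam.blk hγ.und
  have hFr : Fd ℓ M D θ → Fr (D.map p) γ' := by
    intro hfd t' ht' v' hv' hne hcom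
    obtain ⟨v, hv, rfl⟩ := hTr.sur v' hv'
    obtain ⟨t, ht, h3⟩ := hTr.act t' ht'
    obtain ⟨w, hw, hw1, hw2⟩ := hTr.fix ht h3 hv hcom (pow_ix ht)
    have hwZ : w ∉ opCore ℓ G := by
      intro hwz
      have e1 : n * w * n⁻¹ ∈ opCore ℓ G := hn.conj_mem _ hwz n
      rw [← hker, MonoidHom.mem_ker] at e1
      have e2 : (p.comp (MulAut.conj n).toMonoidHom) w = 1 := e1
      rw [e2] at hw2
      obtain ⟨y, hy⟩ : ∃ y : D.map p, (y : A) = (p.comp (MulAut.conj n).toMonoidHom) v :=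
        ⟨⟨_, hv'⟩, rfl⟩
      obtain ⟨k, hk⟩ := hV'.tp.pg y
      have e3 : orderOf y ∣ ℓ ^ k := orderOf_dvd_of_pow_eq_one hk
      have e4 : orderOf y ∣ ix D γ := by
        apply orderOf_dvd_of_pow_eq_one
        apply Subtype.ext
        rw [Subgroup.coe_pow, hy, ← hw2]
        rfl
      have e5 : Nat.Coprime (ℓ ^ k) (ix D γ) :=
        Nat.Coprime.pow_left _ ((Nat.Prime.coprime_iff_not_dvd hℓ).2 hcop)
      have e6 : orderOf y = 1 := Nat.eq_one_of_dvd_coprimes e5 e3 e4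
      rw [orderOf_eq_one_iff] at e6
      apply hne
      rw [← hy, e6]
      rfl
    have htC := hfd t ((hmemT t).1 ht) w hw hwZ hw1
    rw [Subgroup.mem_centralizer_iff]
    intro y hy
    obtain ⟨u, hu, rfl⟩ := hTr.sur y hy
    have e7 := h3 u hu
    rw [← Subgroup.mem_centralizer_iff.1 htC u hu, mul_inv_cancel_right] at e7
    have e8 := mul_inv_eq_iff_eq_mul.1 e7.symm
    exact e8.symm
  have hty8 : Ty8 ℓ a (D.map p) γ' := by
    rcases hty with ⟨k, hk0, hka, hk, hsz, hei⟩ | ⟨h3a, hgen⟩ | ⟨ha, hfd, hin⟩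
    · refine Or.inl ⟨k, hk0, hka, hexp, ?_, hsz, ?_⟩
      · rcases hk with hk | hk | ⟨hk, hfd⟩
        · exact Or.inl hk
        · exact Or.inr (Or.inl (lt_of_le_of_lt hixle (hIn _ hk)))
        · exact Or.inr (Or.inr ⟨lt_of_le_of_lt hixle (hIn _ hk), hFr hfd⟩)
      · rcases hei with hei | hei | hei
        · exact Or.inl (hTr.abel fun s hs t ht => hei s ((hmemT s).1 hs) t ((hmemT t).1 ht))
        · exact Or.inr (Or.inl (lt_of_le_of_lt hixle (hIn _ hei)))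
        · exact Or.inr (Or.inr (hFr hei))
    · exact Or.inr (Or.inl ⟨h3a, hexp, hgen⟩)
    · exact Or.inr (Or.inr ⟨ha, hexp, hFr hfd, hixle.trans (Nat.lt_succ_iff.1 (hIn _ hin))⟩)
  have h0 : YY ℓ (⊤ : Subgroup A) (push p e) = 0 :=
    hT ℓ M hM h2l a A (push p e) (D.map p) γ' hV' hty8
  rw [h0, mul_zero] at heq
  rcases mul_eq_zero.1 heq with h | h
  · exact absurd h (by exact_mod_cast (Nat.card_pos (α := G)).ne')
  · exact h

end Pool.Agent.PP.T8.H24
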