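import Pool.Agent.AT8.Stmts4

/-!
# Squad AT8, row RGA

An abelian group of automorphisms of order prime to `ℓ` has a regular vector on `V/V ^ ℓ`.
-/

set_option autoImplicit false

namespace Pool.Agent.PP.T8

namespace H24

/-- the elements of `E` which fix `y` modulo the `n`-th powers -/
def sub {V : Type} [CommGroup V] (n : ℕ) (E : Subgroup (MulAut V)) (y : V) :
    Subgroup (MulAut V) where
  carrier := {s | s ∈ E ∧ ∃ v, s y = y * v ^ n}
  one_mem' := ⟨E.one_mem, 1, by simp⟩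
  mul_mem' := by
    rintro s t ⟨hs, v, hv⟩ ⟨ht, w, hw⟩
    refine ⟨E.mul_mem hs ht, v * s w, ?_⟩
    rw [MulAut.mul_apply, hw, map_mul, hv, map_pow, mul_pow, mul_assoc]
  inv_mem' := by
    rintro s ⟨hs, v, hv⟩
    refine ⟨E.inv_mem hs, (s⁻¹ v)⁻¹, ?_⟩
    have h : s⁻¹ (s y) = s⁻¹ (y * v ^ n) := by rw [hv]
    rw [MulAut.inv_apply_self, map_mul, map_pow] at h
    rw [inv_pow]
    exact eq_mul_inv_of_mul_eq h.symm

theorem sub_le {V : Type} [CommGroup V] (n : ℕ) (E : Subgroup (MulAut V)) (y : V) :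
    sub n E y ≤ E := fun _ h => h.1

theorem mem_sub {V : Type} [CommGroup V] {n : ℕ} {E : Subgroup (MulAut V)} {y : V}
    {s : MulAut V} : s ∈ sub n E y ↔ s ∈ E ∧ ∃ v, s y = y * v ^ n := Iff.rfl

theorem exists_order {V : Type} [CommGroup V] [Finite V] : ∃ y : V, orderOf y = Monoid.exponent V :=
  Monoid.exists_orderOf_eq_exponent Monoid.ExponentExists.of_finite

theorem pow_exp {V : Type} [CommGroup V] {m : ℕ} (h : Monoid.exponent V = m) (v : V) :
    v ^ m = 1 := by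
  rw [← h]; exact Monoid.pow_exponent_eq_one v

/-- the step of the induction -/
theorem step (hC : CprStmt) (ℓ : ℕ) [hp : Fact ℓ.Prime] (V : Type) [CommGroup V] [Finite V] (b : ℕ)
    (hexp : Monoid.exponent V = ℓ ^ (b + 1)) (E : Subgroup (MulAut V)) (hE : ¬ ℓ ∣ Nat.card E)
    (hcomm : ∀ s ∈ E, ∀ t ∈ E, s * t = t * s) (y : V) (hy : orderOf y = ℓ ^ (b + 1))
    (hS : sub ℓ E y ≠ ⊥) :
    ∃ y' : V, orderOf y' = ℓ ^ (b + 1) ∧
      Nat.card (sub ℓ E y') < Nat.card (sub ℓ E y) := by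
  have hSE : ¬ ℓ ∣ Nat.card (sub ℓ E y) := fun h =>
    hE (h.trans (Subgroup.card_dvd_of_le (sub_le ℓ E y)))
  obtain ⟨⟨π, hπ1, hπ2, hπ3, hπ4⟩, hlast⟩ := hC ℓ V (b + 1) hexp (sub ℓ E y) hSE
  have hg : ∀ g ∈ E, ∀ v, g (π v) = π (g v) := by
    intro g hg
    refine hπ3 g fun s hs => ?_
    rw [hcomm g hg s hs.1, mul_inv_cancel_right]
    exact hs
  obtain ⟨w₀, hw₀⟩ := hπ4 ℓ y fun s hs => hs.2
  have hy1 : (π y) ^ ℓ ^ b = y ^ ℓ ^ b := by
    rw [hw₀, mul_pow, ← pow_mul, ← pow_succ', pow_exp hexp, mul_one]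
  have hyne : (π y) ^ ℓ ^ b ≠ 1 := by
    rw [hy1]
    intro h
    have h1 := orderOf_dvd_of_pow_eq_one h
    rw [hy, Nat.pow_dvd_pow_iff_le_right hp.out.one_lt] at h1
    omega
  have hex : ∃ s ∈ sub ℓ E y, ∃ v : V, ∀ w, s v ≠ v * w ^ ℓ := by
    by_contra hcon
    push Not at hcon
    exact hS (hlast hcon)
  obtain ⟨s, hs, v, hv⟩ := hex
  have hππ : ∀ u, π (π u) = π u := fun u => hπ2 (π u) fun s hs => (hπ1 u s hs).1
  have hwne : ∀ x : V, v * (π v)⁻¹ ≠ x ^ ℓ := by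
    intro x hx
    have h1 : v = π v * x ^ ℓ := by rw [← hx, mul_comm v, mul_inv_cancel_left]
    apply hv (x⁻¹ * s x)
    have h2 : s v = π v * (s x) ^ ℓ := by
      conv_lhs => rw [h1]
      rw [map_mul, (hπ1 v s hs).1, map_pow]
    rw [h2, mul_pow, ← mul_assoc]
    congr 1
    conv_rhs => rw [h1]
    rw [inv_pow, mul_inv_cancel_right]
  have hπw : π (v * (π v)⁻¹) = 1 := by
    rw [map_mul, map_inv, hππ, mul_inv_cancel]
  generalize v * (π v)⁻¹ = w at hwne hπw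
  refine ⟨π y * w, ?_, ?_⟩
  · apply orderOf_eq_prime_pow
    · intro h
      have h1 := congrArg π h
      rw [map_one, map_pow, map_mul, hππ, hπw, mul_one] at h1
      exact hyne h1
    · exact pow_exp hexp _
  · have hle : sub ℓ E (π y * w) ≤ sub ℓ E y := by
      rintro g ⟨hgE, x, hx⟩
      refine ⟨hgE, w₀ * π x * (g w₀)⁻¹, ?_⟩
      have h1 : g (π y) = π y * (π x) ^ ℓ := by
        have h2 := congrArg π hx
        rw [← hg g hgE] at h2
        simp only [map_mul π, hππ, hπw, mul_one, map_pow π] at h2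
        exact h2
      have h3 : y = π y * (w₀⁻¹) ^ ℓ := by rw [hw₀, inv_pow, mul_inv_cancel_right]
      have h4 : g y = π y * (π x) ^ ℓ * ((g w₀)⁻¹) ^ ℓ := by
        conv_lhs => rw [h3]
        rw [map_mul, h1, map_pow, map_inv]
      rw [h4, hw₀, mul_pow, mul_pow]
      simp only [mul_assoc]
    by_contra hcon
    have heq := Subgroup.eq_of_le_of_card_ge hle (not_lt.1 hcon)
    obtain ⟨u, hu⟩ := hπ4 ℓ w fun g hg' => by
      have hg2 : g ∈ sub ℓ E (π y * w) := by rw [heq]; exact hg'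
      obtain ⟨_, x, hx⟩ := hg2
      refine ⟨x, ?_⟩
      rw [map_mul, (hπ1 y g hg').1, mul_assoc] at hx
      exact mul_left_cancel hx
    rw [hπw] at hu
    apply hwne u⁻¹
    rw [inv_pow]
    exact eq_inv_of_mul_eq_one_left hu.symm

theorem rga (hC : CprStmt) : RgaStmt := by
  intro ℓ hp V _ _ a ha hexp E hE hcomm
  obtain ⟨b, rfl⟩ : ∃ b, a = b + 1 := ⟨a - 1, by omega⟩
  have key : ∀ n : ℕ, ∀ y : V, orderOf y = ℓ ^ (b + 1) → Nat.card (sub ℓ E y) = n →
      ∃ y : V, orderOf y = ℓ ^ (b + 1) ∧ ∀ s ∈ E, ∀ v : V, s y = y * v ^ ℓ → s = 1 := by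
    intro n
    induction n using Nat.strong_induction_on with
    | _ n ih =>
      intro y hy hn
      by_cases hS : sub ℓ E y = ⊥
      · refine ⟨y, hy, fun s hs v hv => ?_⟩
        have : s ∈ sub ℓ E y := ⟨hs, v, hv⟩
        rw [hS] at this
        exact Subgroup.mem_bot.1 this
      · obtain ⟨y', hy', hlt⟩ := step hC ℓ V b hexp E hE hcomm y hy hS
        exact ih _ (hn ▸ hlt) y' hy' rfl
  obtain ⟨y, hy⟩ := exists_order (V := V)
  exact key _ y (hy.trans hexp) rfl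

end H24

end Pool.Agent.PP.T8
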